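import Pool.Agent.H41.HI.Sys
import Pool.Agent.H75.HCI.Small
import Pool.Agent.H16.TK.NFM
import Pool.Agent.H71.CC

/-!
# The final theorem on hereditary classes of structures of bounded arity, from the local theorem

`T_STAR r` says that a structure of arity `r` with few substructures has no system.
-/

set_option autoImplicit false

open Set Pool.Agent.TK

namespace Pool.Agent.H41.HI

open Pool.Agent.H41.RLH Pool.Agent.H75.HCI

/-- the arity is at most `r`: the labels of longer lists carry no information -/
def Ar {C : Type} (r : ℕ) (M : List ℕ → C) : Prop :=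
  ∀ l l' : List ℕ, r < l.length → r < l'.length → M l = M l'

/-- STAR: a structure of bounded arity with few substructures has no system. -/
def T_STAR (r : ℕ) : Prop := ∀ (C : Type) (M : List ℕ → C), Ar r M →
  SmallE M (id : ℕ → ℕ) (univ : Set ℕ) → IsEmpty (HSys M (LFin M))

/-- the infinite induced substructures in all their enumerations -/
def LSub {C : Type} (M : List ℕ → C) : Set (List ℕ → C) :=
  {M' | ∃ f : ℕ → ℕ, Function.Injective f ∧ M' = fun l => M (l.map f)}

lemma meas_cnt {P : Type} [MeasurableSpace P] {p : P → ℕ → Prop}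
    [∀ K, DecidablePred (p K)] (hp : ∀ v, MeasurableSet {K | p K v}) :
    ∀ k i, MeasurableSet {K | Nat.count (p K) k = i} := by
  intro k
  induction k with
  | zero =>
    intro i
    simp only [Nat.count_zero]
    exact MeasurableSet.const _
  | succ k ih =>
    intro i
    have h : {K | Nat.count (p K) (k + 1) = i} =
        ({K | p K k} ∩ {K | Nat.count (p K) k + 1 = i}) ∪
          ({K | p K k}ᶜ ∩ {K | Nat.count (p K) k = i}) := by
      ext K
      simp only [mem_ofPred_eq, mem_union, mem_inter_iff, mem_compl_iff, Nat.count_succ]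
      by_cases h : p K k <;> simp [h]
    rw [h]
    refine ((hp k).inter ?_).union ((hp k).compl.inter (ih i))
    cases i with
    | zero => simp
    | succ i =>
      simp only [Nat.add_right_cancel_iff]
      exact ih i

open Classical in
lemma meas_nth {P : Type} [MeasurableSpace P] {A : P → Set ℕ}
    (hA : ∀ v, MeasurableSet {K | v ∈ A K}) (hi : ∀ K, (A K).Infinite) (i : ℕ) :
    Measurable fun K => Nat.nth (· ∈ A K) i := by
  refine measurable_to_countable' fun k => ?_
  have h : (fun K => Nat.nth (· ∈ A K) i) ⁻¹' {k} =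
      {K | k ∈ A K} ∩ {K | Nat.count (· ∈ A K) k = i} := by
    ext K
    simp only [mem_preimage, mem_singleton_iff, mem_inter_iff, mem_ofPred_eq]
    constructor
    · rintro rfl
      exact ⟨Nat.nth_mem_of_infinite (hi K) i, Nat.count_nth_of_infinite (hi K) i⟩
    · rintro ⟨h1, h2⟩
      rw [← h2]
      exact Nat.nth_count (p := fun v => v ∈ A K) h1
  rw [h]
  exact (hA k).inter (meas_cnt hA k i)

lemma meas_pull {C P : Type} [MeasurableSpace C] [MeasurableSpace P] (M : List ℕ → C)
    {f : P → ℕ → ℕ} (hf : ∀ i, Measurable fun K => f K i) :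
    Measurable fun K => fun l : List ℕ => M (l.map (f K)) := by
  refine measurable_pi_lambda _ fun l => ?_
  have h1 : ∀ m : List ℕ, MeasurableSet {K | l.map (f K) = m} := by
    induction l with
    | nil =>
      intro m
      simp only [List.map_nil]
      exact MeasurableSet.const _
    | cons u l ih =>
      intro m
      match m with
      | [] =>
        have : {K | (u :: l).map (f K) = []} = ∅ := by
          ext K; simp
        rw [this]
        exact MeasurableSet.empty
      | v :: m =>
        have : {K | (u :: l).map (f K) = v :: m} =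
            (fun K => f K u) ⁻¹' {v} ∩ {K | l.map (f K) = m} := by
          ext K; simp
        rw [this]
        exact ((hf u) (measurableSet_singleton v)).inter (ih m)
  intro S _
  have h2 : (fun K => M (l.map (f K))) ⁻¹' S =
      ⋃ m : List ℕ, {K | l.map (f K) = m ∧ M m ∈ S} := by
    ext K
    simp only [mem_preimage, mem_iUnion, mem_ofPred_eq]
    exact ⟨fun h => ⟨_, rfl, h⟩, fun ⟨m, h3, h4⟩ => h3 ▸ h4⟩
  rw [h2]
  exact MeasurableSet.iUnion fun m => (h1 m).inter (MeasurableSet.const _)

/-- structures without perfectly many types of substructures are small -/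
theorem smallE_of {C : Type} [MeasurableSpace C] [StandardBorelSpace C] (M : List ℕ → C)
    (hP : ¬ LPerf (LSub M)) : SmallE M (id : ℕ → ℕ) (univ : Set ℕ) := by
  classical
  intro A z hA hi _ _ hz
  by_contra hcon
  push Not at hcon
  apply hP
  have hmem : ∀ K i, Nat.nth (· ∈ A K) i ∈ A K := fun K i => Nat.nth_mem_of_infinite (hi K) i
  have hinj : ∀ K, Function.Injective (Nat.nth (· ∈ A K)) := fun K => Nat.nth_injective (hi K)
  have hsur : ∀ K, ∀ v ∈ A K, ∃ i, Nat.nth (· ∈ A K) i = v := by
    intro K v hv
    have h1 : range (Nat.nth (· ∈ A K)) = A K :=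
      Nat.range_nth_of_infinite (p := (· ∈ A K)) (hi K)
    rw [← h1] at hv
    exact hv
  set F : (ℕ → Bool) → List ℕ → C := fun K l => M (l.map (Nat.nth (· ∈ A K))) with hF
  have hFm : Measurable F := meas_pull M fun i => meas_nth hA hi i
  have hFX : ∀ K, F K ∈ LSub M := fun K => ⟨_, hinj K, rfl⟩
  choose pos hpos using fun K (v : {v // v ∈ A K}) => hsur K v.1 v.2
  -- the positions of the marks
  let pz : (ℕ → Bool) → List ℕ := fun K => z.attach.map fun x => pos K ⟨x.1, hz K x.1 x.2⟩
  -- isomorphisms which respect the marks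
  have key : ∀ K K', K ≠ K' → ∀ g : Equiv.Perm ℕ, LIso g (F K) (F K') →
      (pz K).map g ≠ pz K' := by
    intro K K' hne g hg h0
    let G : ℕ → ℕ := fun v => if h : v ∈ A K then Nat.nth (· ∈ A K') (g (pos K ⟨v, h⟩)) else v
    have hG : ∀ i, G (Nat.nth (· ∈ A K) i) = Nat.nth (· ∈ A K') (g i) := by
      intro i
      have h1 : pos K ⟨Nat.nth (· ∈ A K) i, hmem K i⟩ = i := hinj K (hpos K _)
      simp only [G, dif_pos (hmem K i), h1]
    have hE : Emb M (id : ℕ → ℕ) M id G (A K) := ?_
    have hI : G '' A K = A K' := ?_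
    · obtain ⟨x, hx, hne'⟩ := hcon K K' hne G hE hI
      apply hne'
      have h1 : g (pos K ⟨x, hz K x hx⟩) = pos K' ⟨x, hz K' x hx⟩ := by
        have h2 : z.attach.map (fun x => g (pos K ⟨x.1, hz K x.1 x.2⟩)) =
            z.attach.map (fun x => pos K' ⟨x.1, hz K' x.1 x.2⟩) := by
          refine Eq.trans ?_ h0
          simp only [pz, List.map_map]
          rfl
        exact List.map_inj_left.1 h2 ⟨x, hx⟩ (List.mem_attach z _)
      simp only [G, dif_pos (hz K x hx), h1]
      exact hpos K' ⟨x, hz K' x hx⟩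
    · ext w
      constructor
      · rintro ⟨v, hv, rfl⟩
        obtain ⟨i, rfl⟩ := hsur K v hv
        rw [hG]
        exact hmem K' _
      · intro hw
        obtain ⟨i, rfl⟩ := hsur K' w hw
        exact ⟨Nat.nth (· ∈ A K) (g.symm i), hmem K _, by rw [hG, Equiv.apply_symm_apply]⟩
    refine ⟨?_, ?_, ?_⟩
    · intro v hv w hw h
      obtain ⟨i, rfl⟩ := hsur K v hv
      obtain ⟨j, rfl⟩ := hsur K w hw
      rw [hG, hG] at h
      rw [g.injective (hinj K' h)]
    · intro l hl
      obtain ⟨m, rfl⟩ : ∃ m : List ℕ, m.map (Nat.nth (· ∈ A K)) = l := by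
        clear h0
        induction l with
        | nil => exact ⟨[], rfl⟩
        | cons v l ih =>
          obtain ⟨i, hi'⟩ := hsur K v (hl v (by simp))
          obtain ⟨m, hm⟩ := ih fun x hx => hl x (by simp [hx])
          exact ⟨i :: m, by rw [List.map_cons, hi', hm]⟩
      have h1 := hg m
      simp only [hF, List.map_map] at h1
      rw [← h1, List.map_map]
      congr 1
      exact List.map_congr_left fun i _ => hG i
    · intro v hv w hw
      obtain ⟨i, rfl⟩ := hsur K v hv
      obtain ⟨j, rfl⟩ := hsur K w hw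
      rw [hG, hG]
      simp only [id_eq]
      rw [(hinj K').eq_iff, (hinj K).eq_iff, g.injective.eq_iff]
  have hR : MeasureTheory.AnalyticSet
      {p : (ℕ → Bool) × (ℕ → Bool) | Iso (toSt (F p.1)) (toSt (F p.2))} := by
    have hf : Measurable fun K => toSt (F K) := measurable_const.prodMk hFm
    have h1 := Pool.Agent.H71.DST.analyticSet_proj
      (measurableSet_iso (P := (ℕ → Bool) × (ℕ → Bool)) (f := fun p => toSt (F p.1))
        (f' := fun p => toSt (F p.2)) (hf.comp measurable_fst) (hf.comp measurable_snd))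
    have h2 : {p : (ℕ → Bool) × (ℕ → Bool) | Iso (toSt (F p.1)) (toSt (F p.2))} =
        {x | ∃ y : (ℕ → ℕ) × (ℕ → ℕ), (x, y) ∈
          {p : ((ℕ → Bool) × (ℕ → Bool)) × ((ℕ → ℕ) × (ℕ → ℕ)) | (∀ n, p.2.1 (p.2.2 n) = n) ∧
      (∀ n, p.2.2 (p.2.1 n) = n) ∧
      (∀ u v, (toSt (F p.1.1)).1 u v = (toSt (F p.1.2)).1 (p.2.1 u) (p.2.1 v)) ∧
      ∀ l : List ℕ, (toSt (F p.1.1)).2 l = (toSt (F p.1.2)).2 (l.map p.2.1)}} := by
      ext p
      exact iso_iff
    rw [h2]
    exact h1
  have hsec : ∀ K, {K' | (K, K') ∈ {p : (ℕ → Bool) × (ℕ → Bool) |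
      Iso (toSt (F p.1)) (toSt (F p.2))}}.Countable := by
    intro K
    have hch : ∀ y : {K' // Iso (toSt (F K)) (toSt (F K'))}, ∃ g : Equiv.Perm ℕ,
        LIso g (F K) (F y.1) := fun y => iso_toSt.1 y.2
    choose h hh using hch
    have hinj' : Function.Injective
        (fun y : {K' // Iso (toSt (F K)) (toSt (F K'))} => (pz y.1).map (h y).symm) := by
      intro y y' hyy
      by_contra hne
      have hne' : y.1 ≠ y'.1 := fun e => hne (Subtype.ext e)
      refine key y.1 y'.1 hne' ((h y).symm.trans (h y')) (fun l => ?_) ?_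
      · have e1 := hh y (l.map (h y).symm)
        have e2 := hh y' (l.map (h y).symm)
        rw [List.map_map] at e1 e2
        have e3 : l.map ((h y) ∘ (h y).symm) = l := by simp
        rw [e3] at e1
        rw [e1, ← e2]
        rfl
      · have h1 : (pz y.1).map (h y).symm = (pz y'.1).map (h y').symm := hyy
        have h2 : ∀ l : List ℕ, l.map ((h y).symm.trans (h y')) =
            (l.map (h y).symm).map (h y') := by
          intro l
          rw [List.map_map]
          rfl
        rw [h2, h1, List.map_map]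
        simp
    exact (countable_coe_iff (s := {K' | Iso (toSt (F K)) (toSt (F K'))})).1
      (Function.Injective.countable hinj')
  obtain ⟨e, he1, -, he3⟩ := Pool.Agent.H71.DST.exists_perfect_of_countable_sections hR hsec
  exact ⟨fun u => F (e u), hFm.comp he1.measurable, fun u => hFX _,
    fun u v huv hg => he3 u v huv (iso_toSt.2 hg)⟩

/-- **The final theorem from STAR.** -/
theorem final_of_star {r : ℕ} (hS : T_STAR r) {C : Type} [MeasurableSpace C]
    [StandardBorelSpace C] (A : Set (List ℕ → C))
    (hA : A = ∅ ∨ ∃ f : (ℕ → ℕ) → List ℕ → C, Measurable f ∧ range f = A)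
    (har : ∀ M ∈ A, Ar r M) : LCount A ∨ LPerf A ∨ ¬ LCount {M ∈ A | LPerf (LSub M)} := by
  rcases genF A hA with h | h | h
  · exact Or.inl h
  · exact Or.inr (Or.inl h)
  · refine Or.inr (Or.inr fun hcon => h ?_)
    obtain ⟨T, hT, h1⟩ := hcon
    refine ⟨T, hT, fun M hM => h1 M ⟨hM.1, ?_⟩⟩
    by_contra hP
    exact (hS C M (har M hM.1) (smallE_of M hP)).false hM.2.some

end Pool.Agent.H41.HI
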