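import Pool.Agent.H41.HI.Final

/-!
# Analytic classes of structures of bounded arity: form for the hand-in
-/

set_option autoImplicit false

open Set

namespace Pool.Agent.H41.HI.Hand

open Pool.Agent.H41.RLH Pool.Agent.H41.HI

/-- Structures on the natural numbers: a label in `C` for every `r`-tuple. -/
abbrev Structure (r : ℕ) (C : Type) : Type := (Fin r → ℕ) → C

/-- `g` is an isomorphism from the structure `x` onto the structure `y`. -/
def IsIsomorphism {r : ℕ} {C : Type} (x y : Structure r C) (g : Equiv.Perm ℕ) : Prop :=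
  ∀ a : Fin r → ℕ, y (g ∘ a) = x a

/-- `A` contains structures of only countably many isomorphism types. -/
def CountablyManyTypes {r : ℕ} {C : Type} (A : Set (Structure r C)) : Prop :=
  ∃ D : Set (Structure r C), D.Countable ∧ ∀ x ∈ A, ∃ y ∈ D, ∃ g, IsIsomorphism x y g

/-- `A` contains structures of perfectly many isomorphism types: some Borel map from the Cantor
space to `A` takes distinct points to structures which are not isomorphic. -/
def PerfectlyManyTypes {r : ℕ} {C : Type} [MeasurableSpace C] (A : Set (Structure r C)) : Prop :=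
  ∃ F : (ℕ → Bool) → Structure r C, Measurable F ∧ (∀ u, F u ∈ A) ∧
    ∀ u v, u ≠ v → ¬ ∃ g, IsIsomorphism (F u) (F v) g

/-- Analytic sets: the empty set and the images of Borel maps defined on the Baire space. -/
def IsAnalytic {X : Type} [MeasurableSpace X] (A : Set X) : Prop :=
  A = ∅ ∨ ∃ f : (ℕ → ℕ) → X, Measurable f ∧ range f = A

/-- The structures which `x` induces on the infinite sets of natural numbers, in all their
enumerations. -/
def Substructures {r : ℕ} {C : Type} (x : Structure r C) : Set (Structure r C) :=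
  {y | ∃ f : ℕ → ℕ, Function.Injective f ∧ y = fun a => x (f ∘ a)}

section enc

variable {r : ℕ} {C : Type}

/-- the structure on lists -/
def enc (c0 : C) (x : Structure r C) : List ℕ → C × Bool := fun l =>
  if h : l.length = r then (x fun i => l[(i : ℕ)]'(by rw [h]; exact i.2), true) else (c0, false)

/-- back -/
def dec (M : List ℕ → C × Bool) : Structure r C := fun a => (M (List.ofFn a)).1

lemma enc_ofFn (c0 : C) (x : Structure r C) (a : Fin r → ℕ) :
    enc c0 x (List.ofFn a) = (x a, true) := by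
  unfold enc
  rw [dif_pos (List.length_ofFn)]
  simp

lemma enc_ne (c0 : C) (x : Structure r C) {l : List ℕ} (h : l.length ≠ r) :
    enc c0 x l = (c0, false) := dif_neg h

lemma exists_ofFn {l : List ℕ} (h : l.length = r) : ∃ a : Fin r → ℕ, List.ofFn a = l := by
  subst h
  exact ⟨l.get, List.ofFn_get l⟩

lemma enc_map (c0 : C) (x : Structure r C) (f : ℕ → ℕ) (l : List ℕ) :
    enc c0 x (l.map f) = enc c0 (fun a => x (f ∘ a)) l := by
  by_cases h : l.length = r
  · obtain ⟨a, rfl⟩ := exists_ofFn h
    rw [List.map_ofFn, enc_ofFn, enc_ofFn]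
  · rw [enc_ne c0 x (by rwa [List.length_map]), enc_ne c0 _ h]

lemma enc_inj (c0 : C) {x y : Structure r C} (h : enc c0 x = enc c0 y) : x = y := by
  funext a
  have h1 := congrFun h (List.ofFn a)
  rw [enc_ofFn, enc_ofFn] at h1
  exact (Prod.ext_iff.1 h1).1

lemma liso_enc (c0 : C) {x y : Structure r C} {g : Equiv.Perm ℕ} :
    LIso g (enc c0 x) (enc c0 y) ↔ IsIsomorphism x y g := by
  constructor
  · intro h a
    have h1 := h (List.ofFn a)
    rw [List.map_ofFn, enc_ofFn, enc_ofFn] at h1
    exact (Prod.ext_iff.1 h1).1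
  · intro h l
    rw [enc_map]
    congr 1
    funext a
    exact h a

lemma dec_enc (c0 : C) (x : Structure r C) : dec (enc c0 x) = x := by
  funext a
  unfold dec
  rw [enc_ofFn]

lemma measurable_enc [MeasurableSpace C] (c0 : C) :
    Measurable (enc c0 : Structure r C → List ℕ → C × Bool) := by
  refine measurable_pi_lambda _ fun l => ?_
  by_cases h : l.length = r
  · obtain ⟨a, rfl⟩ := exists_ofFn h
    simp only [enc_ofFn]
    exact (measurable_pi_apply a).prodMk measurable_const
  · simp only [enc_ne c0 _ h]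
    exact measurable_const

lemma measurable_dec [MeasurableSpace C] :
    Measurable (dec : (List ℕ → C × Bool) → Structure r C) :=
  measurable_pi_lambda _ fun a => measurable_fst.comp (measurable_pi_apply (List.ofFn a))

end enc

/-- the theorem from the local theorem -/
theorem result_of_star {r : ℕ} (hS : T_STAR r) {C : Type} [MeasurableSpace C]
    [StandardBorelSpace C] (X : Set (Structure r C)) (hX : IsAnalytic X) :
    CountablyManyTypes X ∨ PerfectlyManyTypes X ∨
      ¬ CountablyManyTypes {x ∈ X | PerfectlyManyTypes (Substructures x)} := by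
  classical
  rcases isEmpty_or_nonempty C with hC | ⟨⟨c0⟩⟩
  · exact Or.inl ⟨∅, countable_empty, fun x _ => (hC.false (x fun _ => 0)).elim⟩
  have hA : enc c0 '' X = ∅ ∨ ∃ f : (ℕ → ℕ) → List ℕ → C × Bool, Measurable f ∧
      range f = enc c0 '' X := by
    rcases hX with rfl | ⟨f, hf, rfl⟩
    · exact Or.inl (by simp)
    · exact Or.inr ⟨fun z => enc c0 (f z), (measurable_enc c0).comp hf, by
        rw [← range_comp]; rfl⟩
  have har : ∀ M ∈ enc c0 '' X, Ar r M := by
    rintro _ ⟨x, -, rfl⟩ l l' h h'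
    rw [enc_ne c0 x (by omega), enc_ne c0 x (by omega)]
  have hfrom : ∀ (T : Set (List ℕ → C × Bool)) (x : Structure r C) (M : List ℕ → C × Bool),
      LIsom (enc c0 x) M → ∃ g, IsIsomorphism x (dec M) g := by
    rintro T x M ⟨g, hg⟩
    refine ⟨g, fun a => ?_⟩
    have h1 := hg (List.ofFn a)
    rw [List.map_ofFn, enc_ofFn] at h1
    exact (Prod.ext_iff.1 h1).1
  rcases final_of_star hS (enc c0 '' X) hA har with ⟨T, hT, h1⟩ | ⟨F, hF1, hF2, hF3⟩ | h
  · left
    refine ⟨dec '' T, hT.image _, fun x hx => ?_⟩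
    obtain ⟨M, hM, h2⟩ := h1 _ ⟨x, hx, rfl⟩
    exact ⟨_, ⟨M, hM, rfl⟩, hfrom T x M h2⟩
  · right
    left
    refine ⟨fun u => dec (F u), measurable_dec.comp hF1, fun u => ?_, fun u v huv => ?_⟩
    · obtain ⟨x, hx, hxu⟩ := hF2 u
      change dec (F u) ∈ X
      rw [← hxu, dec_enc]
      exact hx
    · rintro ⟨g, hg⟩
      obtain ⟨x, hx, hxu⟩ := hF2 u
      obtain ⟨y, hy, hyv⟩ := hF2 v
      apply hF3 u v huv
      change IsIsomorphism (dec (F u)) (dec (F v)) g at hg
      rw [← hxu, ← hyv, dec_enc, dec_enc] at hg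
      rw [← hxu, ← hyv]
      exact ⟨g, (liso_enc c0).2 hg⟩
  · right
    right
    rintro ⟨D, hD, h1⟩
    apply h
    refine ⟨enc c0 '' D, hD.image _, ?_⟩
    rintro _ ⟨⟨x, hx, rfl⟩, F, hF1, hF2, hF3⟩
    have key : ∀ u, ∃ y ∈ Substructures x, enc c0 y = F u := by
      intro u
      obtain ⟨f, hf, h2⟩ := hF2 u
      refine ⟨_, ⟨f, hf, rfl⟩, ?_⟩
      rw [h2]
      funext l
      rw [← enc_map]
    obtain ⟨y, hy, g, hg⟩ := h1 x ⟨hx, fun u => dec (F u), measurable_dec.comp hF1, fun u => by
      obtain ⟨y, hy, hyu⟩ := key u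
      change dec (F u) ∈ _
      rw [← hyu, dec_enc]
      exact hy, fun u v huv => by
      rintro ⟨g, hg⟩
      obtain ⟨y, hy, hyu⟩ := key u
      obtain ⟨y', hy', hyv⟩ := key v
      apply hF3 u v huv
      change IsIsomorphism (dec (F u)) (dec (F v)) g at hg
      rw [← hyu, ← hyv, dec_enc, dec_enc] at hg
      rw [← hyu, ← hyv]
      exact ⟨g, (liso_enc c0).2 hg⟩⟩
    exact ⟨_, ⟨y, hy, rfl⟩, g, (liso_enc c0).2 hg⟩

/-- hereditary classes -/
theorem hereditary_of_star {r : ℕ} (hS : T_STAR r) {C : Type} [MeasurableSpace C]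
    [StandardBorelSpace C] (X : Set (Structure r C)) (hX : IsAnalytic X)
    (hsub : ∀ x ∈ X, Substructures x ⊆ X) :
    CountablyManyTypes X ∨ PerfectlyManyTypes X := by
  rcases result_of_star hS X hX with h | h | h
  · exact Or.inl h
  · exact Or.inr h
  · by_contra hcon
    obtain ⟨-, h2⟩ := not_or.1 hcon
    refine h ⟨∅, countable_empty, ?_⟩
    rintro x ⟨hx, F, hF1, hF2, hF3⟩
    exact absurd ⟨F, hF1, fun u => hsub x hx (hF2 u), hF3⟩ h2

end Pool.Agent.H41.HI.Hand
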