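import Pool.Agent.H41.RLH.Lists

/-!
# The system of pairs with supports, for an arbitrary group `N` of automorphisms
-/

set_option autoImplicit false

open Set Topology Filter Pool.Agent.TK

namespace Pool.Agent.H41.HI

open Pool.Agent.H71.VK Pool.Agent.H94.VK Pool.Agent.H71 Pool.Agent.H41.ST Pool.Agent.H41.RLH

variable {C : Type}

/-- A group `K` of pairs (automorphism, permutation) and finite supports of lists, with the
lifting property. -/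
structure HSys (M : List ℕ → C) (N : Subgroup (Equiv.Perm ℕ)) where
  K : Subgroup (Equiv.Perm ℕ × Equiv.Perm ℕ)
  sup : List ℕ → Finset ℕ
  aut : ∀ p ∈ K, LIso p.1 M M
  eqv : ∀ p ∈ K, ∀ (a : List ℕ) (n : ℕ), n ∈ sup a ↔ p.2 n ∈ sup (a.map p.1)
  mono : ∀ a b : List ℕ, a ⊆ b → sup a ⊆ sup b
  surj : ∀ (a : List ℕ) (σ : Equiv.Perm ℕ), (∀ n ∈ sup a, σ n = n) →
    ∃ h : Equiv.Perm ℕ, (h, σ) ∈ K ∧ ∀ x ∈ a, h x = x
  nil : sup [] = ∅
  unb : ∃ a, sup a ≠ ∅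
  ker : ∀ g ∈ N, (g, (1 : Equiv.Perm ℕ)) ∈ K
  clo : ∀ g σ : Equiv.Perm ℕ, (∀ E : Finset ℕ, ∃ p ∈ K, ∀ x ∈ E, p.1 x = g x ∧ p.2 x = σ x) →
    (g, σ) ∈ K

attribute [local instance] permTop in
/-- all the facts needed for the group theorem -/
theorem exists_hsys {M : List ℕ → C} {N : Subgroup (Equiv.Perm ℕ)} (hN : N ≤ AutG (toSt M))
    (hnorm : ∀ h : Equiv.Perm ℕ, IsoH h (toSt M) (toSt M) → ∀ n ∈ N, h * n * h⁻¹ ∈ N)
    {ν : List ℕ → ℕ} {φ : Y C} (hF : FlatN N (toSt M) ν φ) (hdiv : PDiv (AutY φ)) :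
    Nonempty (HSys M N) := by
  classical
  obtain ⟨H, hH, hcl, ψ, hψ, hcont⟩ := hdiv
  obtain ⟨supp, hs1, hs2⟩ := Pool.Agent.H41.HS.exists_supp H hcl ψ hψ hcont
  have hs : SuppD H ψ supp := ⟨hs1, hs2⟩
  have haut : ∀ θ : H, ∀ i j, φ ((θ : Equiv.Perm ℕ) i) ((θ : Equiv.Perm ℕ) j) = φ i j :=
    fun θ => hH θ.2
  have hcorr : ∀ θ : H, CorrN N N (toSt M) (toSt M)
      (fun l m => (θ : Equiv.Perm ℕ) (ν l) = ν m) ∧
      ∀ m, ∃ l, (θ : Equiv.Perm ℕ) (ν l) = ν m := fun θ =>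
    flcN _ _ _ _ ν ν φ φ θ hF hF (haut θ)
  have hmono : ∀ a b : List ℕ, a ⊆ b → supp (ν a) ⊆ supp (ν b) := by
    intro a b hab
    obtain ⟨π, hπ⟩ := exists_reindex hab
    refine hs.min _ _ fun σ hσ => ?_
    obtain ⟨θ, h1, h2⟩ := hs.surj _ σ hσ
    refine ⟨θ, ?_, h2⟩
    have h3 := (hcorr θ).1.ri π b b h1
    rwa [hπ] at h3
  -- lifting with prescribed stabiliser
  have hlift : ∀ (θ : H) (a : List ℕ), (θ : Equiv.Perm ℕ) (ν a) = ν a →
      ∃ h : Equiv.Perm ℕ, IsoH h (toSt M) (toSt M) ∧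
        (∀ l : List ℕ, (θ : Equiv.Perm ℕ) (ν l) = ν (l.map h)) ∧ ∀ x ∈ a, h x = x := by
    intro θ a ha
    obtain ⟨h, h1, h2, h3⟩ := liftN (hcorr θ).1 (hcorr θ).2 a a ha
    refine ⟨h, h1, h3, ?_⟩
    have h4 : a.map h = a.map id := by rw [h2, List.map_id]
    exact List.map_inj_left.1 h4
  have hnil : supp (ν []) = ∅ := by
    refine Finset.subset_empty.1 (hs.min _ _ fun σ _ => ?_)
    obtain ⟨θ, hθ⟩ := hψ σ
    refine ⟨θ, ?_, hθ⟩
    obtain ⟨m, hm⟩ := (hcorr θ).1.tot []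
    have h1 := (hcorr θ).1.len _ _ hm
    rw [List.length_nil, eq_comm, List.length_eq_zero_iff] at h1
    rwa [h1] at hm
  have hunb : ∃ a, supp (ν a) ≠ ∅ := by
    by_contra hcon
    push Not at hcon
    obtain ⟨F, hFm⟩ := exists_modulus H ψ hcont 0
    choose s hs' using hF.surj
    obtain ⟨θ, h1, h2⟩ := hs.surj (ν (F.toList.flatMap s)) (Equiv.swap 0 1) (by
      rw [hcon]; simp)
    have h3 := hFm θ fun i hi => by
      have h3 : s i ⊆ F.toList.flatMap s := by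
        intro x hx
        exact List.mem_flatMap.2 ⟨i, Finset.mem_toList.2 hi, hx⟩
      obtain ⟨π, hπ⟩ := exists_reindex h3
      have h4 := (hcorr θ).1.ri π _ _ h1
      rw [hπ, hs'] at h4
      exact h4
    rw [h2, Equiv.swap_apply_left] at h3
    exact one_ne_zero h3
  refine ⟨{ K := kGroup (toSt M) ν H ψ, sup := fun a => supp (ν a),
            aut := fun p hp => isoH_toSt.1 hp.1, eqv := ?_,
            mono := hmono, surj := ?_, nil := hnil, unb := hunb, ker := ?_, clo := ?_ }⟩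
  · rintro p ⟨hp, θ, h1, h2⟩ a n
    rw [hs.eqv θ (ν a) n, h1, h2]
  · intro a σ hσ
    obtain ⟨θ, h1, h2⟩ := hs.surj _ σ hσ
    obtain ⟨h, h3, h4, h5⟩ := hlift θ a h1
    exact ⟨h, ⟨h3, θ, h2, h4⟩, h5⟩
  · intro g hg
    refine ⟨hN hg, 1, map_one _, fun l => ?_⟩
    change ν l = ν (l.map g)
    rw [hF.ker]
    exact ⟨g, hg, rfl⟩
  · intro g σ hg
    have hgI : IsoH g (toSt M) (toSt M) := Pool.Agent.H41.HS.closed_isoH (toSt M) g fun E => by
      obtain ⟨p, hp, h'⟩ := hg E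
      exact ⟨p.1, hp.1, fun x hx => (h' x hx).1⟩
    obtain ⟨γ, -, hγ⟩ := fliN _ _ (toSt M) (toSt M) ν ν φ φ g hF hF hgI
      (relN_tr (hnorm g hgI)) (relN_tr (hnorm g⁻¹ (isoH_inv hgI)))
    choose s hs' using hF.surj
    -- approximations
    have happ : ∀ F E : Finset ℕ, ∃ θ : H, (∀ a ∈ F, (θ : Equiv.Perm ℕ) a = γ a) ∧
        ∀ x ∈ E, ψ θ x = σ x := by
      intro F E
      obtain ⟨p, ⟨hp, θ, k1, k2⟩, h'⟩ := hg ((F.biUnion fun a => (s a).toFinset) ∪ E)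
      refine ⟨θ, fun a ha => ?_, fun x hx => ?_⟩
      · have h1 : (s a).map p.1 = (s a).map g := List.map_congr_left fun x hx =>
          (h' x (Finset.mem_union_left _ (Finset.mem_biUnion.2 ⟨a, ha, by simpa using hx⟩))).1
        calc (θ : Equiv.Perm ℕ) a = (θ : Equiv.Perm ℕ) (ν (s a)) := by rw [hs']
          _ = ν ((s a).map p.1) := k2 _
          _ = γ (ν (s a)) := by rw [h1, hγ]
          _ = γ a := by rw [hs']
      · rw [k1]
        exact (h' x (Finset.mem_union_right _ hx)).2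
    have hγH : γ ∈ (H : Set (Equiv.Perm ℕ)) := by
      refine mem_of_isClosed hcl γ fun F => ?_
      obtain ⟨θ, h1, -⟩ := happ F ∅
      exact ⟨θ, θ.2, h1⟩
    refine ⟨hgI, ⟨γ, hγH⟩, ?_, hγ⟩
    ext n
    obtain ⟨F, hFm⟩ := exists_modulus H ψ hcont n
    obtain ⟨θ, h1, h2⟩ := happ F {n}
    have h3 := hFm (θ⁻¹ * ⟨γ, hγH⟩) fun a ha => by
      change (θ : Equiv.Perm ℕ).symm (γ a) = a
      rw [← h1 a ha, Equiv.symm_apply_apply]
    rw [map_mul, map_inv] at h3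
    change (ψ θ).symm (ψ ⟨γ, hγH⟩ n) = n at h3
    rw [Equiv.symm_apply_eq, h2 n (Finset.mem_singleton_self n)] at h3
    exact h3

/-- the counting theorem with systems -/
theorem rlh_sys [MeasurableSpace C] [StandardBorelSpace C] (A : Set (List ℕ → C))
    (hA : A = ∅ ∨ ∃ f : (ℕ → ℕ) → List ℕ → C, Measurable f ∧ range f = A)
    (N : (List ℕ → C) → Subgroup (Equiv.Perm ℕ)) (hN : ∀ M ∈ A, ∀ n ∈ N M, LIso n M M)
    (htr : ∀ M ∈ A, ∀ M' ∈ A, ∀ h : Equiv.Perm ℕ, LIso h M M' →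
      ∀ n ∈ N M, h * n * h⁻¹ ∈ N M')
    (hB : ∀ l m : List ℕ, ∃ B : Set (List ℕ → C), MeasurableSet B ∧
      ∀ M ∈ A, M ∈ B ↔ ∃ n ∈ N M, l.map n = m) :
    LCount A ∨ LPerf A ∨ ¬ LCount {M ∈ A | Nonempty (HSys M (N M))} := by
  classical
  rcases hA with rfl | ⟨f, hf, rfl⟩
  · exact Or.inl ⟨∅, countable_empty, fun x hx => hx.elim⟩
  have hfm : ∀ z, f z ∈ range f := fun z => ⟨z, rfl⟩
  have hq : Measurable fun z => toSt (f z) := measurable_const.prodMk hf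
  have hN' : ∀ z, N (f z) ≤ AutG (toSt (f z)) := fun z n hn => isoH_toSt.2 (hN _ (hfm z) n hn)
  have htr' : ∀ z z' (h : Equiv.Perm ℕ), IsoH h (toSt (f z)) (toSt (f z')) →
      ∀ n ∈ N (f z), h * n * h⁻¹ ∈ N (f z') :=
    fun z z' h hh n hn => htr _ (hfm z) _ (hfm z') h (isoH_toSt.1 hh) n hn
  rcases genN (fun z => toSt (f z)) hq (fun z => N (f z)) hN' htr'
    (fun l m => by
      obtain ⟨B, hB1, hB2⟩ := hB l m
      have h1 : {z | RelN (N (f z)) l m} = f ⁻¹' B := by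
        ext z
        exact (hB2 _ (hfm z)).symm
      rw [h1]
      exact hf hB1) (fun z => Nonempty (HSys (f z) (N (f z))))
      (fun z ν φ hF hdiv => exists_hsys (hN' z) (fun h hh => htr' z z h hh) hF hdiv)
      with ⟨T, hT, h1⟩ | ⟨F, hF1, hF2⟩ | h3
  · left
    let g : St C → List ℕ → C := fun M => M.2
    refine ⟨g '' T, hT.image g, ?_⟩
    rintro _ ⟨z, rfl⟩
    obtain ⟨M, hM, h, -, -, h2⟩ := h1 z
    exact ⟨_, ⟨M, hM, rfl⟩, h, fun l => (h2 l).symm⟩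
  · right
    left
    exact ⟨fun u => f (F u), hf.comp hF1.measurable, fun u => hfm _,
      fun u v huv h => hF2 u v huv (iso_toSt.2 h)⟩
  · right
    right
    rintro ⟨T, hT, h1⟩
    refine h3 ⟨toSt '' T, hT.image _, fun z hz => ?_⟩
    obtain ⟨M', hM', h2⟩ := h1 (f z) ⟨hfm z, hz⟩
    exact ⟨_, ⟨M', hM', rfl⟩, iso_toSt.2 h2⟩

/-- **GENF**: systems which kill the finitary automorphisms. -/
theorem genF [MeasurableSpace C] [StandardBorelSpace C] (A : Set (List ℕ → C))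
    (hA : A = ∅ ∨ ∃ f : (ℕ → ℕ) → List ℕ → C, Measurable f ∧ range f = A) :
    LCount A ∨ LPerf A ∨ ¬ LCount {M ∈ A | Nonempty (HSys M (LFin M))} :=
  rlh_sys A hA LFin (fun _ _ _ hn => hn.1) (fun _ _ _ _ _ hh => lfin_tr hh)
    fun l m => ⟨_, measurable_fin l m, fun _ _ => Iff.rfl⟩

end Pool.Agent.H41.HI
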